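import Pool.Agent.Q302.AZ.Final

/-!
# MP_af84fe_lc, Q1: no uncountable analytic `Z_0`-MAD family exists

Every analytic maximal almost disjoint family modulo the density zero ideal is countable.
-/

namespace Pool.Agent.Results.MP_af84fe_lc.AnalyticMADCountable

open Pool.Agent.Q302.AZ

/-- Full (negative) answer to Q1 of MP_af84fe_lc: the negated form holds in ZFC. -/
theorem result : ∀ 𝒜 : Set (Set ℕ), IsAnalyticFamily 𝒜 → IsMAD Z0 𝒜 → 𝒜.Countable :=
  main

end Pool.Agent.Results.MP_af84fe_lc.AnalyticMADCountable
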